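import Mathlib

/-!
# The five lemma for generalized eigenvectors

`c : M → V` identifies `M` with the space of the vectors of `V` killed by a power of `F - 1`.
-/

set_option autoImplicit false

namespace Pool.Agent.E8helper75.TB

section lin

variable {K : Type} [Field K]

/-- The linear map `c` is injective and its image contains every vector killed by a power of `F - 1`.
(If moreover `F (c m) = c m` for all `m`, then `c` is an isomorphism onto the eigenspace of `F` for the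
eigenvalue `1`, and this eigenvalue is semisimple.) -/
def Ident {M V : Type} [AddCommGroup M] [Module K M] [AddCommGroup V] [Module K V]
    (F : V →ₗ[K] V) (c : M →ₗ[K] V) : Prop :=
  Function.Injective c ∧ ∀ (v : V) (n : ℕ), ((F - 1) ^ n) v = 0 → v ∈ LinearMap.range c

/-- generalized eigenvectors in the image of `w` are images of generalized eigenvectors -/
def Lifts {V W : Type} [AddCommGroup V] [Module K V] [AddCommGroup W] [Module K W]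
    (F : V →ₗ[K] V) (G : W →ₗ[K] W) (w : V →ₗ[K] W) : Prop :=
  ∀ (v : V) (n : ℕ), ((G - 1) ^ n) (w v) = 0 → ∃ (v' : V) (m : ℕ), ((F - 1) ^ m) v' = 0 ∧ w v' = w v

lemma pow_comm {V W : Type} [AddCommGroup V] [Module K V] [AddCommGroup W] [Module K W]
    {F : V →ₗ[K] V} {G : W →ₗ[K] W} {w : V →ₗ[K] W} (h : ∀ v, w (F v) = G (w v)) (n : ℕ) (v : V) :
    w (((F - 1) ^ n) v) = ((G - 1) ^ n) (w v) := by
  induction n generalizing v with
  | zero => simp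
  | succ n ih =>
    rw [pow_succ, pow_succ]
    change w (((F - 1) ^ n) ((F - 1) v)) = ((G - 1) ^ n) ((G - 1) (w v))
    rw [ih]
    congr 1
    simp [h]

/-- Fitting: in a finite-dimensional space every vector is congruent, modulo the image of `f ^ n`, to a
generalized null vector -/
lemma fitting {V : Type} [AddCommGroup V] [Module K V] [FiniteDimensional K V] (f : V →ₗ[K] V)
    (n : ℕ) (x : V) : ∃ (y : V) (N : ℕ), (f ^ N) (x - (f ^ n) y) = 0 := by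
  have h := LinearMap.isCompl_iSup_ker_pow_iInf_range_pow f
  have hx : x ∈ (⨆ k, LinearMap.ker (f ^ k)) ⊔ ⨅ k, LinearMap.range (f ^ k) := by
    rw [h.sup_eq_top]
    trivial
  obtain ⟨a, ha, b, hb, hab⟩ := Submodule.mem_sup.mp hx
  have hb' : b ∈ LinearMap.range (f ^ n) := (Submodule.mem_iInf _).mp hb n
  obtain ⟨y, hy⟩ := hb'
  have hmono : Monotone fun k => LinearMap.ker (f ^ k) := by
    intro i j hij v hv
    obtain ⟨k, rfl⟩ := Nat.exists_eq_add_of_le hij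
    change (f ^ (i + k)) v = 0
    have hv' : (f ^ i) v = 0 := hv
    rw [add_comm, pow_add]
    change (f ^ k) ((f ^ i) v) = 0
    rw [hv', map_zero]
  obtain ⟨N, hN⟩ := (Submodule.mem_iSup_of_directed _ hmono.directed_le).mp ha
  refine ⟨y, N, ?_⟩
  rw [hy, ← hab, add_sub_cancel_right]
  exact hN

lemma lifts_of_finite {V W : Type} [AddCommGroup V] [Module K V] [AddCommGroup W] [Module K W]
    [FiniteDimensional K V] {F : V →ₗ[K] V} {G : W →ₗ[K] W} {w : V →ₗ[K] W}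
    (h : ∀ v, w (F v) = G (w v)) : Lifts F G w := by
  intro v n hv
  have hst : ∀ x ∈ LinearMap.ker w, (F - 1) x ∈ LinearMap.ker w := by
    intro x hx
    rw [LinearMap.mem_ker] at hx ⊢
    rw [LinearMap.sub_apply, map_sub, h, hx]
    simp [hx]
  let f : LinearMap.ker w →ₗ[K] LinearMap.ker w := (F - 1).restrict hst
  have hf : ∀ (k : ℕ) (x : LinearMap.ker w), (((f ^ k) x : LinearMap.ker w) : V) =
      ((F - 1) ^ k) (x : V) := by
    intro k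
    induction k with
    | zero => intro x; simp
    | succ k ih =>
      intro x
      rw [pow_succ, pow_succ]
      change (((f ^ k) (f x) : LinearMap.ker w) : V) = ((F - 1) ^ k) ((F - 1) (x : V))
      rw [ih]
      rfl
  have h0 : ((F - 1) ^ n) v ∈ LinearMap.ker w := by
    rw [LinearMap.mem_ker, pow_comm h, hv]
  obtain ⟨y, N, hy⟩ := fitting f n ⟨_, h0⟩
  refine ⟨v - (y : V), N + n, ?_, ?_⟩
  · rw [pow_add]
    change ((F - 1) ^ N) (((F - 1) ^ n) (v - (y : V))) = 0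
    rw [map_sub]
    have h1 := congrArg (fun z : LinearMap.ker w => (z : V)) hy
    simp only [hf, Submodule.coe_zero, AddSubgroupClass.coe_sub] at h1
    exact h1
  · have := y.2
    rw [LinearMap.mem_ker] at this
    rw [map_sub, this, sub_zero]

/-- if `F` is the identity -/
lemma lifts_one {V W : Type} [AddCommGroup V] [Module K V] [AddCommGroup W] [Module K W]
    {G : W →ₗ[K] W} {w : V →ₗ[K] W} : Lifts (1 : V →ₗ[K] V) G w :=
  fun v _ _ => ⟨v, 1, by simp, rfl⟩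

variable {M₁ M₂ M₃ M₄ M₅ V₁ V₂ V₃ V₄ V₅ : Type}
  [AddCommGroup M₁] [Module K M₁] [AddCommGroup M₂] [Module K M₂] [AddCommGroup M₃] [Module K M₃]
  [AddCommGroup M₄] [Module K M₄] [AddCommGroup M₅] [Module K M₅]
  [AddCommGroup V₁] [Module K V₁] [AddCommGroup V₂] [Module K V₂] [AddCommGroup V₃] [Module K V₃]
  [AddCommGroup V₄] [Module K V₄] [AddCommGroup V₅] [Module K V₅]

/-- The five lemma. -/
theorem five {u₁ : M₁ →ₗ[K] M₂} {u₂ : M₂ →ₗ[K] M₃} {u₃ : M₃ →ₗ[K] M₄} {u₄ : M₄ →ₗ[K] M₅}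
    {w₁ : V₁ →ₗ[K] V₂} {w₂ : V₂ →ₗ[K] V₃} {w₃ : V₃ →ₗ[K] V₄} {w₄ : V₄ →ₗ[K] V₅}
    {c₁ : M₁ →ₗ[K] V₁} {c₂ : M₂ →ₗ[K] V₂} {c₃ : M₃ →ₗ[K] V₃} {c₄ : M₄ →ₗ[K] V₄}
    {c₅ : M₅ →ₗ[K] V₅}
    {F₁ : V₁ →ₗ[K] V₁} {F₂ : V₂ →ₗ[K] V₂} {F₃ : V₃ →ₗ[K] V₃} {F₄ : V₄ →ₗ[K] V₄}
    {F₅ : V₅ →ₗ[K] V₅}
    (s₁ : ∀ m, w₁ (c₁ m) = c₂ (u₁ m)) (s₂ : ∀ m, w₂ (c₂ m) = c₃ (u₂ m))
    (s₃ : ∀ m, w₃ (c₃ m) = c₄ (u₃ m)) (s₄ : ∀ m, w₄ (c₄ m) = c₅ (u₄ m))
    (e₂ : Function.Exact u₁ u₂) (e₃ : Function.Exact u₂ u₃) (e₄ : Function.Exact u₃ u₄)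
    (x₂ : Function.Exact w₁ w₂) (x₃ : Function.Exact w₂ w₃) (x₄ : Function.Exact w₃ w₄)
    (l₁ : Lifts F₁ F₂ w₁) (l₂ : Lifts F₂ F₃ w₂) (g₃ : ∀ v, w₃ (F₃ v) = F₄ (w₃ v))
    (f₂ : ∀ m, F₂ (c₂ m) = c₂ m) (f₃ : ∀ m, F₃ (c₃ m) = c₃ m)
    (h₁ : Ident F₁ c₁) (h₂ : Ident F₂ c₂) (h₄ : Ident F₄ c₄) (h₅ : Ident F₅ c₅) :
    Ident F₃ c₃ := by
  constructor
  · rw [injective_iff_map_eq_zero]
    intro m hm
    have h6 : u₃ m = 0 := by
      apply h₄.1
      rw [← s₃, hm, map_zero, map_zero]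
    obtain ⟨m₂, rfl⟩ := (e₃ m).mp h6
    rw [← s₂] at hm
    obtain ⟨v₁, hv₁⟩ := (x₂ (c₂ m₂)).mp hm
    obtain ⟨v, n, hv, hvv⟩ := l₁ v₁ 1 (by rw [hv₁]; simp [f₂])
    obtain ⟨m₁, rfl⟩ := h₁.2 v n hv
    have h7 : m₂ = u₁ m₁ := by
      apply h₂.1
      rw [← s₁, hvv, hv₁]
    rw [h7]
    exact e₂.apply_apply_eq_zero m₁
  · intro v n hv
    obtain ⟨m₄, hm₄⟩ := h₄.2 (w₃ v) n (by rw [← pow_comm g₃, hv, map_zero])
    have h6 : u₄ m₄ = 0 := by
      apply h₅.1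
      rw [← s₄, hm₄, x₄.apply_apply_eq_zero, map_zero]
    obtain ⟨m₃, rfl⟩ := (e₄ m₄).mp h6
    have h7 : w₃ (v - c₃ m₃) = 0 := by rw [map_sub, s₃, hm₄, sub_self]
    obtain ⟨v₂, hv₂⟩ := (x₃ _).mp h7
    have h8 : ((F₃ - 1) ^ (n + 1)) (v - c₃ m₃) = 0 := by
      rw [map_sub]
      have h9 : ((F₃ - 1) ^ (n + 1)) v = 0 := by
        rw [pow_succ']
        change (F₃ - 1) (((F₃ - 1) ^ n) v) = 0
        rw [hv, map_zero]
      have h10 : ((F₃ - 1) ^ (n + 1)) (c₃ m₃) = 0 := by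
        rw [pow_succ]
        change ((F₃ - 1) ^ n) ((F₃ - 1) (c₃ m₃)) = 0
        have : (F₃ - 1) (c₃ m₃) = 0 := by simp [f₃]
        rw [this, map_zero]
      rw [h9, h10, sub_zero]
    rw [← hv₂] at h8
    obtain ⟨v', n', hv', hvv'⟩ := l₂ v₂ _ h8
    obtain ⟨m₂, rfl⟩ := h₂.2 v' n' hv'
    refine ⟨m₃ + u₂ m₂, ?_⟩
    rw [map_add, ← s₂, hvv', hv₂]
    abel

end lin

end Pool.Agent.E8helper75.TB
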